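import Mathlib
import Pool.Agent.H48.BB

set_option autoImplicit false

namespace Pool.Agent.Results.MP_0be8ec_al.Yes

/-- Centrally essential rings. -/
def CentrallyEssential (R : Type) [Ring R] : Prop :=
  ∀ a : R, a ≠ 0 → ∃ x ∈ Subring.center R, ∃ y ∈ Subring.center R, a * x = y ∧ y ≠ 0

/-- Rings with a polynomial identity: an integral noncommutative polynomial, having coefficient
one at some monomial of maximal degree, that vanishes under every substitution. -/
def IsPI (R : Type) [Ring R] : Prop :=
  ∃ (n : ℕ) (f : MonoidAlgebra ℤ (FreeMonoid (Fin n))),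
    (∃ w, f.coeff w = 1 ∧ ∀ u ∈ f.coeff.support, u.length ≤ w.length) ∧
    ∀ r : Fin n → R, MonoidAlgebra.lift ℤ R (FreeMonoid (Fin n)) (FreeMonoid.lift r) f = 0

open Pool.Agent.H48.BB

/-- Monomials. -/
abbrev U := List ℕ × ℕ

/-- The space. -/
def V := U × ℕ →₀ ℚ

noncomputable instance : AddCommGroup V := inferInstanceAs (AddCommGroup (U × ℕ →₀ ℚ))
noncomputable instance : Module ℚ V := inferInstanceAs (Module ℚ (U × ℕ →₀ ℚ))

/-- The basis. -/
noncomputable def bs : Module.Basis (U × ℕ) ℚ V := Finsupp.basisSingleOne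

/-- Integral vectors. -/
noncomputable abbrev L : AddSubgroup V := lat bs.coord

theorem bs_mem (x : U × ℕ) : bs x ∈ L := fun y => by
  by_cases h : x = y
  · exact ⟨1, by simp [h]⟩
  · exact ⟨0, by simp [Finsupp.single_eq_of_ne' h]⟩

theorem op_mem {α : Module.End ℚ V} (h : ∀ x, α (bs x) ∈ L) : ∀ v ∈ L, α v ∈ L := by
  intro v hv
  rw [← bs.linearCombination_repr v, Finsupp.linearCombination_apply, map_finsuppSum]
  refine sum_mem fun x _ => ?_
  obtain ⟨z, hz⟩ := hv x
  simp only
  rw [map_smul, show bs.repr v x = z from hz, Int.cast_smul_eq_zsmul]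
  exact L.zsmul_mem (h x) z

theorem sp (v : V) : ∃ N : ℕ, N ≠ 0 ∧ (N : ℚ) • v ∈ L := by
  refine ⟨∏ n ∈ (bs.repr v).support, (bs.repr v n).den,
    Finset.prod_ne_zero_iff.mpr fun _ _ => Rat.den_ne_zero _, fun n => ?_⟩
  by_cases h : n ∈ (bs.repr v).support
  · obtain ⟨c, hc⟩ := Finset.dvd_prod_of_mem (fun n => (bs.repr v n).den) h
    exact ⟨(bs.repr v n).num * c, by
      rw [hc, map_smul, smul_eq_mul, Int.cast_mul, ← Rat.mul_den_eq_num, bs.coord_apply]
      push_cast
      ring⟩
  · exact ⟨0, by simp [Finsupp.notMem_support_iff.mp h]⟩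

/-- Lowering operators. -/
noncomputable def D (g : U → U) : Module.End ℚ V :=
  bs.constr ℚ fun x => Nat.casesOn x.2 0 fun k => bs (g x.1, k)

@[simp] theorem D0 (g : U → U) (u : U) : D g (bs (u, 0)) = 0 := bs.constr_basis ..
@[simp] theorem D1 (g : U → U) (u : U) (k : ℕ) : D g (bs (u, k + 1)) = bs (g u, k) :=
  bs.constr_basis ..

/-- The block projections. -/
noncomputable def E (N : ℕ) : Module.End ℚ V :=
  bs.constr ℚ fun x => if x.1.1.length + x.1.2 + x.2 = N then bs x else 0

theorem E_bs (N : ℕ) (x : U × ℕ) :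
    E N (bs x) = if x.1.1.length + x.1.2 + x.2 = N then bs x else 0 := bs.constr_basis ..

theorem DD {g g' : U → U} (h : ∀ u, g (g' u) = g' (g u)) : D g * D g' = D g' * D g := by
  refine bs.ext ?_
  rintro ⟨u, _ | _ | k⟩ <;> simp [h]

theorem DE {g : U → U} (h : ∀ u, (g u).1.length + (g u).2 = u.1.length + u.2 + 1) (N : ℕ) :
    D g * E N = E N * D g := by
  refine bs.ext ?_
  rintro ⟨u, _ | k⟩
  · simp only [Module.End.mul_apply, E_bs, D0, map_zero]
    split_ifs <;> simp
  · simp only [Module.End.mul_apply, E_bs, D1, h, add_assoc, add_comm 1 k]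
    split_ifs <;> simp

/-- The central variable. -/
noncomputable def t : Module.End ℚ V := D fun u => (u.1, u.2 + 1)

/-- The rigidifying family. -/
noncomputable def T : Option (ℕ ⊕ ℕ) → Module.End ℚ V
  | none => t
  | some (.inl i) => D fun u => (i :: u.1, u.2)
  | some (.inr N) => E N

theorem D_mem (g : U → U) : ∀ v ∈ L, D g v ∈ L := op_mem (by
  rintro ⟨u, _ | k⟩
  · rw [D0]; exact zero_mem _
  · rw [D1]; exact bs_mem _)

theorem E_mem (N : ℕ) : ∀ v ∈ L, E N v ∈ L := op_mem fun x => by
  rw [E_bs]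
  split_ifs
  · exact bs_mem _
  · exact zero_mem _

theorem hT : ∀ k, ∀ v ∈ L, T k v ∈ L := by
  rintro (_ | i | N) <;> rw [T]
  exacts [D_mem _, D_mem _, E_mem _]

theorem t_comm : ∀ k, t * T k = T k * t := by
  rintro (_ | i | N) <;> rw [T]
  all_goals rw [t]
  exacts [DD fun _ => rfl, DE (fun _ => rfl) _]

theorem E_comm (N : ℕ) : ∀ k, E N * T k = T k * E N := by
  rintro (_ | i | M) <;> rw [T]
  · exact (t_comm (some (.inr N))).symm
  · exact (DE (fun u => by simp; ring) _).symm
  · refine bs.ext fun x => ?_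
    simp only [Module.End.mul_apply, E_bs]
    split_ifs with h h' h'
    · rw [E_bs, E_bs, if_pos h, if_pos h']
    · rw [E_bs, if_neg h', map_zero]
    · rw [E_bs, if_neg h, map_zero]
    · rw [map_zero, map_zero]

theorem gen {γ : Module.End ℚ V} (h : ∀ k, γ * T k = T k * γ) (Q : ℕ → Submodule ℚ V)
    (hQ : ∀ g k, ∀ v ∈ Q (k + 1), D g v ∈ Q k) (N : ℕ) (hN : γ (bs (([], 0), N)) ∈ Q N)
    (w : List ℕ) (j : ℕ) : ∀ k, w.length + j + k = N → γ (bs ((w, j), k)) ∈ Q k := by
  induction w with
  | nil =>
    induction j with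
    | zero => exact fun k hk => by rwa [show k = N by simpa using hk]
    | succ j ih =>
      intro k hk
      have := LinearMap.congr_fun (h none) (bs (([], j), k + 1))
      simp only [Module.End.mul_apply, T, t, D1] at this
      exact this ▸ hQ _ _ _ (ih (k + 1) (by omega))
  | cons i w ih =>
    intro k hk
    have := LinearMap.congr_fun (h (some (.inl i))) (bs ((w, j), k + 1))
    simp only [Module.End.mul_apply, T, D1] at this
    exact this ▸ hQ _ _ _ (ih (k + 1) (by simp at hk; omega))

theorem gen0 {γ : Module.End ℚ V} (h : ∀ k, γ * T k = T k * γ)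
    (h0 : ∀ N, γ (bs (([], 0), N)) = 0) : γ = 0 :=
  bs.ext fun x => gen h (fun _ => ⊥) (fun g _ v (hv : v = 0) => by simp [hv]) _ (h0 _) _ _ _ rfl

/-- The filtration by room. -/
noncomputable def P (d : ℕ) : Submodule ℚ V := .span ℚ (bs '' {x | x.2 < d})

theorem P_low (g : U → U) (k : ℕ) : ∀ v ∈ P (k + 1), D g v ∈ P k := by
  have : P (k + 1) ≤ (P k).comap (D g) := Submodule.span_le.mpr (by
    rintro _ ⟨⟨u, _ | l⟩, h, rfl⟩
    · simp
    · have : bs (g u, l) ∈ P k := Submodule.subset_span ⟨(g u, l), by simpa using h, rfl⟩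
      simpa using this)
  exact this

theorem ker_t {v : V} (h : t v = 0) : v ∈ P 1 := by
  rw [P, bs.mem_span_image]
  rintro ⟨u, _ | k⟩ hx
  · simp
  · have : bs.coord ((u.1, u.2 + 1), k) ∘ₗ t = bs.coord (u, k + 1) := bs.ext (by
      rintro ⟨⟨w, j⟩, _ | l⟩ <;> simp [t, Finsupp.single_apply, Prod.ext_iff])
    have e := LinearMap.congr_fun this v
    simp only [LinearMap.comp_apply, h, map_zero] at e
    exact absurd e.symm (by simpa using hx)

theorem mulc {α β : Module.End ℚ V} (hα : ∀ k, α * T k = T k * α) (hβ : ∀ k, β * T k = T k * β)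
    (k : Option (ℕ ⊕ ℕ)) : α * β * T k = T k * (α * β) := by
  rw [mul_assoc, hβ, ← mul_assoc, hα, mul_assoc]

theorem central {y β : Module.End ℚ V} (hy : ∀ k, y * T k = T k * y) (hβ : ∀ k, β * T k = T k * β)
    (N : ℕ) (h1 : t * y = 0) (h2 : y * E N = y) : β * y = y * β := by
  set o := bs (([], 0), N) with ho
  set c := bs.repr (β o) (([], 0), N) with hc
  have h3 : ∀ g v, D g (y v) = 0 := fun g v => by
    simpa [P] using P_low g 0 _ (ker_t (LinearMap.congr_fun h1 v))
  have h4 : ∀ v ∈ P N, y v = 0 := by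
    have : P N ≤ LinearMap.ker y := Submodule.span_le.mpr (by
      rintro _ ⟨⟨⟨_ | ⟨i, w⟩, j⟩, k⟩, h, rfl⟩
      · rcases j with _ | j
        · change y _ = 0
          rw [← h2, Module.End.mul_apply, E_bs, if_neg (by simpa using ne_of_lt h), map_zero]
        · have := LinearMap.congr_fun (hy none) (bs (([], j), k + 1))
          simpa [T, t, h3] using this
      · have := LinearMap.congr_fun (hy (some (.inl i))) (bs ((w, j), k + 1))
        simpa [T, h3] using this)
    exact this
  have h5 : β o - c • o ∈ P N := by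
    rw [P, bs.mem_span_image]
    rintro ⟨⟨w, j⟩, k⟩ hx
    by_contra hk
    have e1 : E N o = o := by simp [ho, E_bs]
    have e2 : E N (β o - c • o) = β o - c • o := by
      rw [map_sub, map_smul, e1]
      exact congrArg (· - c • o)
        ((LinearMap.congr_fun (hβ (some (.inr N))) o).symm.trans (congrArg β e1))
    by_cases e : w.length + j + k = N
    · obtain ⟨rfl, rfl, rfl⟩ : w = [] ∧ j = 0 ∧ k = N := by
        simp only [Set.mem_ofPred_eq] at hk
        exact ⟨List.length_eq_zero_iff.mp (by omega), by omega, by omega⟩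
      simp [ho, hc] at hx
    · have : bs.coord ((w, j), k) ∘ₗ E N = 0 := bs.ext fun x => by
        rw [LinearMap.comp_apply, E_bs]
        split_ifs with e'
        · simpa using Finsupp.single_eq_of_ne' fun h => e (by subst h; exact e')
        · simp
      have e3 := LinearMap.congr_fun this (β o - c • o)
      rw [LinearMap.comp_apply, e2] at e3
      exact Finsupp.mem_support_iff.mp hx e3
  have h6 : ∀ v ∈ P 1, (β - c • 1) (E N v) = 0 := by
    have : P 1 ≤ LinearMap.ker ((β - c • 1) * E N) := Submodule.span_le.mpr (by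
      rintro _ ⟨⟨⟨w, j⟩, k⟩, h, rfl⟩
      obtain rfl : k = 0 := by simpa using h
      change (β - c • 1) (E N _) = 0
      rw [E_bs]
      split_ifs with e
      · simpa [P] using gen (γ := β - c • 1) (fun k => by simp [sub_mul, mul_sub, hβ]) P P_low N
          (by simpa using h5) w j 0 e
      · simp)
    exact this
  rw [← sub_eq_zero]
  refine gen0 (fun k => by rw [sub_mul, mul_sub, mulc hβ hy, mulc hy hβ]) fun M => ?_
  by_cases e : M = N
  · subst e
    have e1 := h6 _ (ker_t (LinearMap.congr_fun h1 o))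
    have e2 : E M (y o) = y o := LinearMap.congr_fun ((hy (some (.inr M))).symm.trans h2) o
    have e3 := h4 _ h5
    rw [e2] at e1
    simp only [LinearMap.sub_apply, LinearMap.smul_apply, Module.End.one_apply, map_sub, map_smul,
      sub_eq_zero] at e1 e3
    simp [← ho, e1, e3]
  · have e1 : E N (bs (([], 0), M)) = 0 := by simp [E_bs, e]
    have e2 : β * E N = E N * β := hβ (some (.inr N))
    rw [← h2, mul_assoc y, ← e2]
    simp [e1]

theorem result : ∃ (A : Type) (_ : AddCommGroup A),
    CentrallyEssential (AddMonoid.End A) ∧ ¬ IsPI (AddMonoid.End A) := by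
  obtain ⟨Φ, h1, h2, h3⟩ := main hT sp (lat_red fun v hv => bs.forall_coord_eq_zero_iff.mp hv)
  refine ⟨G L T, inferInstance, fun a ha => ?_, ?_⟩
  · obtain ⟨N, hN⟩ : ∃ N, Φ a (bs (([], 0), N)) ≠ 0 := by
      by_contra hc
      push Not at hc
      exact ha (h1 ((gen0 (h2 a) hc).trans (map_zero Φ).symm))
    obtain ⟨τ, hτ⟩ := h3 t t_comm ⟨0, by simpa [T] using hT none⟩
    obtain ⟨ε, hε⟩ := h3 (E N) (E_comm N) ⟨0, by simpa using E_mem N⟩
    have cτ : τ ∈ Subring.center _ :=
      Subring.mem_center_iff.mpr fun b => h1 (by simpa [hτ, T] using h2 b none)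
    have cε : ε ∈ Subring.center _ :=
      Subring.mem_center_iff.mpr fun b => h1 (by simpa [hε, T] using h2 b (some (.inr N)))
    have h4 : ∃ m, a * (τ ^ (m + 1) * ε) = 0 := by
      refine ⟨N, h1 ((gen0 (h2 _) fun M => ?_).trans (map_zero Φ).symm)⟩
      have : ∀ n j, (t ^ (n + 1)) (bs (([], j), n)) = 0 := fun n => by
        induction n with
        | zero => simp [t]
        | succ n ih => intro j; rw [pow_succ, Module.End.mul_apply, t, D1, ← t, ih]
      by_cases e : M = N <;> simp [hτ, hε, E_bs, e, this]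
    classical
    refine ⟨τ ^ Nat.find h4 * ε, mul_mem (pow_mem cτ _) cε, _, Subring.mem_center_iff.mpr fun b =>
      h1 ?_, rfl, fun h => ?_⟩
    · rw [map_mul, map_mul Φ _ b]
      refine central (h2 _) (h2 _) N ?_ ?_
      · rw [← hτ, ← map_mul, ← mul_assoc, ← Subring.mem_center_iff.mp cτ a, mul_assoc, ← mul_assoc τ,
          ← pow_succ', Nat.find_spec h4, map_zero]
      · have : E N * E N = E N := bs.ext fun x => by
          simp only [Module.End.mul_apply, E_bs]
          split_ifs <;> simp [E_bs, *]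
        simp only [map_mul, hε, mul_assoc, this]
    · rcases e : Nat.find h4 with _ | m
      · have := congrArg (fun x => Φ x (bs (([], 0), N))) h
        simp [e, hε, E_bs, hN] at this
      · exact Nat.find_min h4 (m := m) (by omega) (e ▸ h)
  · rintro ⟨n, f, ⟨w, h4, h5⟩, h6⟩
    choose r hr using fun i : Fin n => h3 (D fun u => (u.1 ++ [i.1], u.2)) (fun k => by
      rcases k with _ | i | N <;> rw [T]
      · exact DD fun _ => rfl
      · exact DD fun _ => rfl
      · exact DE (fun u => by simp; ring) _) ⟨0, by simpa using D_mem _⟩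
    have h9 : ∀ (u : List (Fin n)) k, Φ (FreeMonoid.lift r (FreeMonoid.ofList u))
        (bs (([], 0), k + u.length)) = bs (((u.map Fin.val).reverse, 0), k) := fun u => by
      induction u with
      | nil => simp
      | cons i u ih =>
        intro k
        rw [FreeMonoid.ofList_cons, map_mul, map_mul, Module.End.mul_apply, List.length_cons,
          add_comm u.length, ← add_assoc, ih, FreeMonoid.lift_eval_of, hr, D1]
        simp
    have h7 : ∀ (u : FreeMonoid (Fin n)) k, Φ (FreeMonoid.lift r u) (bs (([], 0), k + u.length)) =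
        bs (((u.toList.map Fin.val).reverse, 0), k) := fun u => h9 u.toList
    have h8 := congrArg (fun x => bs.repr (Φ x (bs (([], 0), w.length)))
      (((w.toList.map Fin.val).reverse, 0), 0)) (h6 r)
    simp only [MonoidAlgebra.lift_apply, Finsupp.sum, map_sum, map_zsmul, LinearMap.sum_apply,
      LinearMap.smul_apply, map_zero, LinearMap.zero_apply, Finsupp.finsetSum_apply,
      Finsupp.smul_apply, Finsupp.zero_apply] at h8
    rw [Finset.sum_eq_single w] at h8
    · have := h7 w 0
      rw [zero_add] at this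
      simp [this, h4] at h8
    · intro u hu hne
      obtain ⟨k, hk⟩ := Nat.exists_eq_add_of_le' (h5 u hu)
      rw [hk, h7, bs.repr_self, Finsupp.single_eq_of_ne', smul_zero]
      intro e
      exact hne (FreeMonoid.toList.injective (List.map_injective_iff.mpr Fin.val_injective
        (List.reverse_injective (congrArg (·.1.1) e))))
    · intro h
      rw [Finsupp.notMem_support_iff.mp h, zero_smul]

end Pool.Agent.Results.MP_0be8ec_al.Yes
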